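import Pool.Agent.Lib.MP_d94cb9_co.Geom

/-!
# Problem MP_d94cb9_co, Question Q1 (upper bound)

There is a `4`-chromatic unit distance graph in the plane with `27` vertices and without cycles of
length `3` and `4`, so `lambda_4` is at most `27`.
-/

namespace Pool.Agent.Results.MP_d94cb9_co.GirthFive27

/-- There are `27` different points in the plane whose unit distance graph `G` (two points are
adjacent if and only if their distance is exactly `1`) has no cycle of length less than `5` and has
chromatic number exactly `4`. -/
theorem result : ∃ (p : Fin 27 → EuclideanSpace ℝ (Fin 2)) (G : SimpleGraph (Fin 27)),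
    Function.Injective p ∧ (∀ u v, G.Adj u v ↔ dist (p u) (p v) = 1) ∧
    (∀ (v : Fin 27) (c : G.Walk v v), c.IsCycle → 5 ≤ c.length) ∧ G.chromaticNumber = 4 := by
  obtain ⟨p, hp, h⟩ := Pool.Agent.MPd94cb9.exists_embedding
  exact ⟨p, Pool.Agent.MPd94cb9.G, hp, h, Pool.Agent.MPd94cb9.five_le_length,
    Pool.Agent.MPd94cb9.chromatic_eq⟩

end Pool.Agent.Results.MP_d94cb9_co.GirthFive27
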